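import Pool.Agent.Helper55.CP.Ctx

/-! Project CP, piece AGREE: two continuous interleaved sequences agree on a club. -/

set_option autoImplicit false

open Cardinal Ordinal Set Filter Helper23.Pcf

universe u

namespace Helper8.CP

theorem agree_aux {i : Ordinal.{u}} {v w : Ordinal.{u} → Ordinal.{u}}
    (cv : ∀ x < v i, ∃ j < i, x < v j) (h : ∀ j < i, ∃ k < i, v j < w k)
    (hw : ∀ k < i, w k < w i) : v i ≤ w i := by
  by_contra hcon
  obtain ⟨j, hj, h1⟩ := cv (w i) (not_le.1 hcon)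
  obtain ⟨k, hk, h2⟩ := h j hj
  exact absurd (h1.trans (h2.trans (hw k hk))) (lt_irrefl _)

theorem agree {o : Ordinal.{u}} (ho : ℵ₀ < o.cof) (v w : Ordinal.{u} → Ordinal.{u})
    (hv : ∀ i j, i < j → j < o → v i < v j) (hw : ∀ i j, i < j → j < o → w i < w j)
    (cv : ∀ i < o, Order.IsSuccLimit i → ∀ x < v i, ∃ j < i, x < v j)
    (cw : ∀ i < o, Order.IsSuccLimit i → ∀ x < w i, ∃ j < i, x < w j)
    (hvw : ∀ i < o, ∃ j < o, v i < w j) (hwv : ∀ i < o, ∃ j < o, w i < v j) :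
    ClubIn {i | v i = w i} o := by
  have hlim : Order.IsSuccLimit o := Ordinal.one_lt_cof_iff.1 (one_lt_aleph0.trans ho)
  refine ⟨fun x hx => ?_, fun δ hδ hδ0 hu => ?_⟩
  · have hg : ∀ y, ∃ z, y < o → y < z ∧ z < o ∧ v y < w z ∧ w y < v z := by
      intro y
      by_cases hy : y < o
      · obtain ⟨j, hj, h1⟩ := hvw y hy
        obtain ⟨k, hk, h2⟩ := hwv y hy
        refine ⟨Order.succ (max y (max j k)), fun _ => ⟨?_, ?_, ?_, ?_⟩⟩
        · exact Order.lt_succ_of_le (le_max_left _ _)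
        · exact hlim.succ_lt (max_lt hy (max_lt hj hk))
        · exact h1.trans (hw _ _ (Order.lt_succ_of_le ((le_max_left _ _).trans (le_max_right _ _)))
            (hlim.succ_lt (max_lt hy (max_lt hj hk))))
        · exact h2.trans (hv _ _ (Order.lt_succ_of_le ((le_max_right _ _).trans (le_max_right _ _)))
            (hlim.succ_lt (max_lt hy (max_lt hj hk))))
      · exact ⟨0, fun h => absurd h hy⟩
    choose g hg using hg
    obtain ⟨z, hz, hxz, hz'⟩ := exists_iter ho g (fun y hy => ⟨(hg y hy).1, (hg y hy).2.1⟩) x hx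
    have hzl : Order.IsSuccLimit z := by
      refine UnbIn.isSuccLimit (C := Set.univ) (fun u hu => ?_) (lt_of_le_of_lt zero_le hxz)
      obtain ⟨y, h1, h2, _⟩ := hz' u hu
      exact ⟨y, trivial, h2, h1⟩
    refine ⟨z, ?_, hxz, hz⟩
    refine le_antisymm (agree_aux (cv z hz hzl) (fun j hj => ?_) fun k hk => hw k z hk hz)
      (agree_aux (cw z hz hzl) (fun j hj => ?_) fun k hk => hv k z hk hz)
    · obtain ⟨y, h1, h2, h3⟩ := hz' j hj
      exact ⟨g y, h3, (hv j y h2 (h1.trans hz)).trans (hg y (h1.trans hz)).2.2.1⟩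
    · obtain ⟨y, h1, h2, h3⟩ := hz' j hj
      exact ⟨g y, h3, (hw j y h2 (h1.trans hz)).trans (hg y (h1.trans hz)).2.2.2⟩
  · have hl : Order.IsSuccLimit δ := hu.isSuccLimit hδ0
    refine le_antisymm (agree_aux (cv δ hδ hl) (fun j hj => ?_) fun k hk => hw k δ hk hδ)
      (agree_aux (cw δ hδ hl) (fun j hj => ?_) fun k hk => hv k δ hk hδ)
    · obtain ⟨i, h1, h2, h3⟩ := hu j hj
      have h4 : v i = w i := h1
      exact ⟨i, h3, h4 ▸ hv j i h2 (h3.trans hδ)⟩
    · obtain ⟨i, h1, h2, h3⟩ := hu j hj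
      have h4 : v i = w i := h1
      exact ⟨i, h3, h4 ▸ hw j i h2 (h3.trans hδ)⟩

end Helper8.CP
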