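import Pool.Agent.Helper55.CP.Ctx

/-! Project CP, piece LADDER: one ladder function for all limit ordinals. -/

set_option autoImplicit false

open Cardinal Ordinal Set Filter Helper23.Pcf

universe u

namespace Helper8.CP

theorem ladder_aux {δ : Ordinal.{u}} (hδ : Order.IsSuccLimit δ) :
    ∃ ξ : Ordinal.{u} → Ordinal.{u}, (∀ i j, i < j → ξ i < ξ j) ∧
      (∀ i, Order.IsSuccLimit i → ∀ x < ξ i, ∃ j < i, x < ξ j) ∧ ξ δ.cof.ord = δ := by
  classical
  obtain ⟨e, he⟩ := Ordinal.exists_isFundamentalSeq (o := δ) rfl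
  obtain ⟨ξ, hξ⟩ := exists_cont (fun j _ => if h : j < δ.cof.ord then (e ⟨j, h⟩).1 else 0)
  have hinf : ℵ₀ ≤ δ.cof := Ordinal.aleph0_le_cof_iff.2 (Ordinal.one_lt_cof_iff.2 hδ)
  have hlim : Order.IsSuccLimit δ.cof.ord := Cardinal.isSuccLimit_ord hinf
  have hbound : ∀ i < δ.cof.ord, ξ i < δ := by
    refine cont_bound hξ hδ ?_ ?_
    · intro i hi ζ _
      rw [dif_pos hi]
      exact (e ⟨i, hi⟩).2
    · intro i hi
      exact Cardinal.lt_ord.1 hi
  have heq : ξ δ.cof.ord = δ := by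
    apply le_antisymm
    · apply le_of_forall_lt
      intro x hx
      obtain ⟨j, hj, hxj⟩ := cont_limit hξ hlim.isSuccPrelimit hx
      exact hxj.trans (hbound j hj)
    · apply le_of_forall_lt
      intro x hx
      obtain ⟨_, ⟨j, rfl⟩, hj⟩ := he.isCofinal_range ⟨x, hx⟩
      have h1 : (e j).1 ≤ ξ (Order.succ j.1) := by
        refine le_trans ?_ (cont_step hξ (Order.lt_succ j.1))
        rw [dif_pos (show j.1 < δ.cof.ord from j.2)]
      exact lt_of_le_of_lt (le_trans hj h1) (cont_lt hξ (hlim.succ_lt j.2))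
  exact ⟨ξ, fun i j h => cont_lt hξ h, fun i hi x hx => cont_limit hξ hi.isSuccPrelimit hx, heq⟩

theorem ladder_exists : ∃ e : Ordinal.{u} → Ordinal.{u} → Ordinal.{u},
    ∀ δ, Order.IsSuccLimit δ → (∀ i j, i < j → e δ i < e δ j) ∧
      (∀ i, Order.IsSuccLimit i → ∀ x < e δ i, ∃ j < i, x < e δ j) ∧ e δ δ.cof.ord = δ := by
  classical
  have h : ∀ δ : Ordinal.{u}, ∃ ξ : Ordinal.{u} → Ordinal.{u}, Order.IsSuccLimit δ →
      (∀ i j, i < j → ξ i < ξ j) ∧
      (∀ i, Order.IsSuccLimit i → ∀ x < ξ i, ∃ j < i, x < ξ j) ∧ ξ δ.cof.ord = δ := by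
    intro δ
    by_cases hδ : Order.IsSuccLimit δ
    · obtain ⟨ξ, h⟩ := ladder_aux hδ
      exact ⟨ξ, fun _ => h⟩
    · exact ⟨id, fun h => absurd h hδ⟩
  choose e he using h
  exact ⟨e, he⟩

end Helper8.CP
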