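import Pool.Agent.Helper55.CP.Ctx

/-! Project CP, piece POINT: a point of cofinality `ρ` in a club with a small cofinal block of the
club. -/

set_option autoImplicit false

open Cardinal Ordinal Set Filter Helper23.Pcf

universe u

namespace Helper8.CP

theorem point_exists {ρ ms : Cardinal.{u}} (hρ : ρ.IsRegular) (hρ0 : ℵ₀ < ρ)
    (hms : ms.IsRegular) (hlt : Order.succ ρ < ms) {E : Set Ordinal.{u}} (hE : ClubIn E ms.ord) :
    ∃ i < ms.ord, i.cof = ρ ∧ ∃ K : Set Ordinal.{u}, K ⊆ E ∧ K ⊆ Iio i ∧ UnbIn K i ∧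
      #K ≤ Cardinal.lift.{u+1} ρ := by
  obtain ⟨C, hC, hg⟩ := club_guessing hρ hρ0 hms hlt
  obtain ⟨i, hi, hcof, hCi, hCE⟩ := hg E hE
  have hci : ℵ₀ < i.cof := by rw [hcof]; exact hρ0
  have hlim : Order.IsSuccLimit i := Ordinal.one_lt_cof_iff.1 (one_lt_aleph0.trans hci)
  obtain ⟨E', h1, h2, h3⟩ := exists_small_club hlim
  refine ⟨i, hi, hcof, C i ∩ E', inter_subset_left.trans hCE, inter_subset_left.trans (hC i),
    (club_inter hci hCi h1).unb, ?_⟩
  refine (Cardinal.mk_le_mk_of_subset inter_subset_right).trans ?_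
  rwa [hcof] at h3

end Helper8.CP
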