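import Pool.Agent.Helper55.CP.Ctx

/-! Project CP, piece TREE: the rank argument. -/

set_option autoImplicit false

open Cardinal Ordinal Set Filter Helper23.Pcf

universe u

namespace Helper8.CP

theorem tree_lemma {ι : Type u} [DecidableEq ι] {κ : Cardinal.{u}} (h0 : ℵ₀ ≤ κ) (hι : #ι ≤ κ)
    (Free : Finset ι → Prop) (Good : Finset ι → Ordinal.{u} → Prop)
    (hG0 : ∀ j < (Order.succ κ).ord, Good ∅ j)
    (hGF : ∀ E j, Good E j → Free E)
    (s : Ordinal.{u} → Ordinal.{u}) (hs : ∀ j < (Order.succ κ).ord, s j < (Order.succ κ).ord)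
    (step : ∀ j₀ < (Order.succ κ).ord, ∀ j, s j₀ ≤ j → j < (Order.succ κ).ord → ∀ E, Good E j →
      ∃ j', j₀ ≤ j' ∧ j' < s j₀ ∧ ∃ y, y ∉ E ∧ Good (insert y E) j') :
    ∃ g : ℕ → ι, Function.Injective g ∧ ∀ n, Free ((Finset.range n).image g) := by
  classical
  have hreg : (Order.succ κ).IsRegular := Cardinal.isRegular_succ h0
  let r : Finset ι → Finset ι → Prop := fun E' E => ∃ y, y ∉ E ∧ E' = insert y E ∧ Free E'
  -- accessible sets are good for few ordinals only
  have key : ∀ E, Acc r E → ∃ β < (Order.succ κ).ord, ∀ j, β ≤ j → j < (Order.succ κ).ord →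
      ¬ Good E j := by
    intro E hE
    induction hE with
    | intro E _ ih =>
      have h1 : ∀ y : ι, ∃ β < (Order.succ κ).ord, y ∉ E → Free (insert y E) →
          ∀ j, β ≤ j → j < (Order.succ κ).ord → ¬ Good (insert y E) j := by
        intro y
        by_cases hy : y ∉ E ∧ Free (insert y E)
        · obtain ⟨β, hβ, h⟩ := ih (insert y E) ⟨y, hy.1, rfl, hy.2⟩
          exact ⟨β, hβ, fun _ _ => h⟩
        · exact ⟨0, hreg.ord_pos, fun ha hb => absurd ⟨ha, hb⟩ hy⟩
      choose β hβ hβ' using h1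
      have hsup : ⨆ y, β y < (Order.succ κ).ord :=
        Ordinal.iSup_lt_of_lt_cof (by rw [hreg.cof_ord]; exact Order.lt_succ_iff.2 hι) hβ
      refine ⟨s (⨆ y, β y), hs _ hsup, fun j hj hj' hG => ?_⟩
      obtain ⟨j', h2, h3, y, hy, hGy⟩ := step _ hsup j hj hj' E hG
      exact hβ' y hy (hGF _ _ hGy) j' ((Ordinal.le_iSup β y).trans h2)
        (h3.trans (hs _ hsup)) hGy
  have hna : ¬ Acc r ∅ := by
    intro hA
    obtain ⟨β, hβ, h⟩ := key ∅ hA
    exact h β le_rfl hβ (hG0 β hβ)
  have next : ∀ E, ¬ Acc r E → ∃ y, y ∉ E ∧ Free (insert y E) ∧ ¬ Acc r (insert y E) := by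
    intro E hE
    by_contra hcon
    push Not at hcon
    refine hE (Acc.intro E fun E' hE' => ?_)
    obtain ⟨y, hy, rfl, hF⟩ := hE'
    exact hcon y hy hF
  haveI : Nonempty ι := ⟨(next ∅ hna).choose⟩
  choose! nx hnx1 hnx2 hnx3 using next
  let e : ℕ → Finset ι := fun n => Nat.rec ∅ (fun _ E => insert (nx E) E) n
  have e0 : e 0 = ∅ := rfl
  have es : ∀ n, e (n + 1) = insert (nx (e n)) (e n) := fun n => rfl
  have hacc : ∀ n, ¬ Acc r (e n) := by
    intro n
    induction n with
    | zero => exact hna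
    | succ n ih => rw [es]; exact hnx3 _ ih
  let g : ℕ → ι := fun n => nx (e n)
  have himg : ∀ n, (Finset.range n).image g = e n := by
    intro n
    induction n with
    | zero => rw [e0]; simp
    | succ n ih => rw [Finset.range_add_one, Finset.image_insert, ih, es]
  have hmono : ∀ m n, m < n → g m ∈ e n := by
    intro m n h
    rw [← himg n]
    exact Finset.mem_image_of_mem g (Finset.mem_range.2 h)
  refine ⟨g, ?_, fun n => ?_⟩
  · intro m n h
    rcases lt_trichotomy m n with h1 | h1 | h1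
    · exact absurd (h ▸ hmono m n h1 : g n ∈ e n) (hnx1 _ (hacc n))
    · exact h1
    · exact absurd (h ▸ hmono n m h1 : g m ∈ e m) (hnx1 _ (hacc m))
  · rw [himg]
    cases n with
    | zero => rw [e0]; exact hGF ∅ 0 (hG0 0 hreg.ord_pos)
    | succ n => rw [es]; exact hnx2 _ (hacc n)

end Helper8.CP
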